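import Pool.Agent.H53.UK.Targets

/-!
# Board uk_modules (MP_c62aed_lc), row HTU
-/

set_option autoImplicit false

namespace Pool.Agent.H4.UK

open Finset Pool.Agent.H53.UK

theorem pf_HTU (hRSU : T_RSU) : T_HTU := by
  classical
  intro n k m μ H w s₀ hH p hp
  have h1 : cnU H p ≤ s₀ := hH p (by omega)
  set I : Finset (Fin m × Fin μ) := univ.filter fun c => InU H p c with hI
  have hIc : I.card ≤ s₀ := by
    refine le_trans (le_of_eq ?_) h1
    unfold cnU
    rw [Nat.card_eq_fintype_card, Fintype.card_subtype]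
  have h2 : (univ.filter fun r : Fin m → Fin μ => HitU H (AL r) p) ⊆
      I.biUnion fun c => univ.filter fun r : Fin m → Fin μ => c ∈ AL r := by
    intro r hr
    rw [Finset.mem_filter] at hr
    obtain ⟨-, c, hc, hcI⟩ := hr
    rw [Finset.mem_biUnion]
    refine ⟨c, ?_, ?_⟩
    · rw [hI, Finset.mem_filter]
      exact ⟨Finset.mem_univ _, hcI⟩
    · rw [Finset.mem_filter]
      exact ⟨Finset.mem_univ _, hc⟩
  have h3 : ∀ c : Fin m × Fin μ, (univ.filter fun r : Fin m → Fin μ => c ∈ AL r).card * μ ≤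
      Nat.card (Fin m → Fin μ) := by
    intro c
    have h := hRSU {c}
    rw [Finset.card_singleton, pow_one, Nat.card_eq_fintype_card, Fintype.card_subtype] at h
    refine le_trans (le_of_eq ?_) h
    congr 2
    ext r
    simp
  rw [Nat.card_eq_fintype_card, Fintype.card_subtype]
  calc (univ.filter fun r : Fin m → Fin μ => HitU H (AL r) p).card * μ
      ≤ (I.biUnion fun c => univ.filter fun r : Fin m → Fin μ => c ∈ AL r).card * μ :=
        Nat.mul_le_mul_right _ (Finset.card_le_card h2)
    _ ≤ (∑ c ∈ I, (univ.filter fun r : Fin m → Fin μ => c ∈ AL r).card) * μ :=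
        Nat.mul_le_mul_right _ Finset.card_biUnion_le
    _ = ∑ c ∈ I, (univ.filter fun r : Fin m → Fin μ => c ∈ AL r).card * μ := by
        rw [Finset.sum_mul]
    _ ≤ ∑ _c ∈ I, Nat.card (Fin m → Fin μ) := Finset.sum_le_sum fun c _ => h3 c
    _ = I.card * Nat.card (Fin m → Fin μ) := by
        rw [Finset.sum_const, smul_eq_mul]
    _ ≤ s₀ * Nat.card (Fin m → Fin μ) := Nat.mul_le_mul_right _ hIc

end Pool.Agent.H4.UK
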